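import Pool.Agent.Q94.RNF

/-!
# The critical Rellich inequality with logarithmic weight fails without radial symmetry

For `k = 2`, every dimension `N ≥ 3100` and every radius `R > 0`, inequality (i) fails for some
`u ∈ C_c^2(B_R)`.  The test function is `u(x) = Re (x₁ + i x₂)^(2m) |x|^(-2m) U(Λ log (R / |x|))`
with `m = N ^ 2` and `Λ ^ 2 = 2m (2m + N - 2)`, for which
`|x|^2 Δu = Re (...) Λ^2 (U'' - ((N - 2) / Λ) U' - U)`; both sides reduce to one-dimensional
integrals, and a profile `U` with `|U'' - U| ≤ 1`, `U(t) ≥ (201/400) t^2` on an interval beats the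
constant, which tends to `2` after taking the `N / 2`-th root.
-/

set_option autoImplicit false

open Set MeasureTheory Laplacian InnerProductSpace

namespace Pool.Agent.Results.MP_ec5c38_an.RellichFails

/-- `Δ^m u`. -/
noncomputable def lapIter {N : ℕ} (m : ℕ) (u : EuclideanSpace ℝ (Fin N) → ℝ) :
    EuclideanSpace ℝ (Fin N) → ℝ := (fun v : EuclideanSpace ℝ (Fin N) → ℝ => Δ v)^[m] u

/-- `|∇^k u|`: the absolute value of `Δ^m u` for `k = 2m`, the norm of the gradient of `Δ^m u` for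
`k = 2m + 1`. -/
noncomputable def absGrad {N : ℕ} (k : ℕ) (u : EuclideanSpace ℝ (Fin N) → ℝ)
    (x : EuclideanSpace ℝ (Fin N)) : ℝ :=
  if Even k then |lapIter (k / 2) u x| else ‖gradient (lapIter (k / 2) u) x‖

/-- The constant `C_{N,k}`. -/
noncomputable def constC (N k : ℕ) : ℝ :=
  (∏ j ∈ Finset.Icc 1 k, ((j : ℝ) * N - k) / N) ^ ((N : ℝ) / k)

/-- Part (i) of the question, for given `N`, `k`, `R`. -/
def PartOne (N k : ℕ) (R : ℝ) : Prop :=
  ∀ u : EuclideanSpace ℝ (Fin N) → ℝ, ContDiff ℝ k u → HasCompactSupport u →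
    tsupport u ⊆ Metric.ball 0 R →
    ENNReal.ofReal (constC N k) * ∫⁻ x in Metric.ball (0 : EuclideanSpace ℝ (Fin N)) R,
        ENNReal.ofReal (|u x| ^ ((N : ℝ) / k) / (‖x‖ ^ N * (Real.log (R / ‖x‖)) ^ N)) ≤
      ∫⁻ x in Metric.ball (0 : EuclideanSpace ℝ (Fin N)) R,
        ENNReal.ofReal (absGrad k u x ^ ((N : ℝ) / k))

/-- For `k = 2` part (i) fails in every dimension `N ≥ 3100`, for every radius. -/
theorem result : ∀ N : ℕ, 3100 ≤ N → ∀ R : ℝ, 0 < R → ¬ PartOne N 2 R := by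
  intro N hN R hR h
  obtain ⟨u, hu, hc, hs, hlt⟩ := Q94.RN.core hN hR
  have h1 := h u (by exact_mod_cast hu) hc hs
  have e1 : constC N 2 = ((((N : ℝ) - 2) / N) * ((2 * (N : ℝ) - 2) / N)) ^ ((N : ℝ) / 2) := by
    unfold constC
    have : Finset.Icc 1 2 = ({1, 2} : Finset ℕ) := by decide
    rw [this, Finset.prod_pair (by norm_num)]
    push_cast
    rw [one_mul]
  have e2 : ∀ x, absGrad 2 u x = |(Δ u) x| := by
    intro x
    unfold absGrad lapIter
    simp
  rw [e1] at h1
  simp only [e2, Nat.cast_ofNat] at h1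
  exact absurd hlt (not_lt.mpr h1)

end Pool.Agent.Results.MP_ec5c38_an.RellichFails
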